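import Pool.Agent.Helper77.KZ.Defs

/-!
Project KZ (MP_0aa406_nt), module KZ-3: basics of plays (parity, union). Statements of the spec of
helper77, in his namespace.
-/

set_option autoImplicit false

namespace Pool.Agent.Helper77.KZ

open Finset

variable {n : ℕ}

theorem EE_parity {g : ZMod n → ℤ} (hg : IsSign g) (U : Finset (ZMod n)) (s : ZMod n) :
    EE g U s ≡ (cov g U s).card [ZMOD 2] := by
  have h1 : ((cov g U s).card : ℤ) = ∑ l ∈ U, (if g (s - l) ≠ 0 then (1 : ℤ) else 0) := by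
    unfold cov
    rw [Finset.card_filter]
    push_cast
    rfl
  rw [Int.modEq_iff_dvd, h1, EE, ← Finset.sum_sub_distrib]
  refine Finset.dvd_sum fun l _ => ?_
  rcases hg (s - l) with h | h | h
  · rw [h]
    simp
  · rw [h]
    simp
  · rw [h]
    norm_num

theorem card_cov_add_rest (g : ZMod n → ℤ) (U : Finset (ZMod n)) (s : ZMod n) :
    (cov g U s).card + (rest g U s).card = U.card := by
  have h := Finset.card_filter_add_card_filter_not (s := U) (fun l => g (s - l) ≠ 0)
  have h2 : U.filter (fun l => ¬ g (s - l) ≠ 0) = rest g U s := by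
    unfold rest
    refine Finset.filter_congr fun l _ => ?_
    exact not_not
  rw [h2] at h
  exact h

theorem Play.parity {g : ZMod n → ℤ} (hg : IsSign g) {U : Finset (ZMod n)} {F : ℤ}
    (h : Play g U F) : F ≡ U.card [ZMOD 2] := by
  induction h with
  | nil => simp [Int.ModEq]
  | step U s F _ ih =>
    have h1 := EE_parity hg U s
    have h2 := card_cov_add_rest g U s
    unfold Int.ModEq at *
    rcases abs_choice (EE g U s - 1) with h3 | h3
    · rw [h3]
      omega
    · rw [h3]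
      omega

theorem Val.nil (g : ZMod n → ℤ) : Val g ∅ 0 := ⟨0, le_rfl, Play.nil⟩

theorem Val.mono {g : ZMod n → ℤ} {U : Finset (ZMod n)} {F F' : ℤ} (h : Val g U F) (h' : F' ≤ F) :
    Val g U F' := by
  obtain ⟨G, hG, hP⟩ := h
  exact ⟨G, h'.trans hG, hP⟩

theorem Val.step {g : ZMod n → ℤ} {U : Finset (ZMod n)} {F : ℤ} (s : ZMod n)
    (h : Val g (rest g U s) F) : Val g U (F + |EE g U s - 1| - 1) := by
  obtain ⟨G, hG, hP⟩ := h
  exact ⟨G + |EE g U s - 1| - 1, by linarith, Play.step U s G hP⟩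

/-- parity improves a value of the wrong parity -/
theorem Val.improve {g : ZMod n → ℤ} (hg : IsSign g) {U : Finset (ZMod n)} {F : ℤ}
    (h : Val g U F) (hp : ¬ F ≡ U.card [ZMOD 2]) : Val g U (F + 1) := by
  obtain ⟨G, hG, hP⟩ := h
  have h1 := hP.parity hg
  refine ⟨G, ?_, hP⟩
  rcases lt_or_eq_of_le hG with h2 | h2
  · omega
  · rw [h2] at hp
    exact absurd h1 hp

theorem Play.union {g : ZMod n → ℤ} {U₁ : Finset (ZMod n)} {F₁ : ℤ} (h₁ : Play g U₁ F₁) :
    ∀ {U₂ : Finset (ZMod n)} {F₂ : ℤ}, Disjoint U₁ U₂ →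
    (∀ s, ∀ a ∈ U₁, ∀ d ∈ U₂, g (s - a) ≠ 0 → g (s - d) ≠ 0 → False) →
    Play g U₂ F₂ → Play g (U₁ ∪ U₂) (F₁ + F₂) := by
  induction h₁ with
  | nil =>
    intro U₂ F₂ _ _ h₂
    rw [Finset.empty_union, zero_add]
    exact h₂
  | step U s F _ ih =>
    intro U₂ F₂ hd hna h₂
    by_cases hm : Meets g U s
    · obtain ⟨a, ha, hga⟩ := hm
      have h0 : ∀ d ∈ U₂, g (s - d) = 0 := by
        intro d hd'
        by_contra h3
        exact hna s a ha d hd' hga h3
      have hsub : rest g U s ⊆ U := Finset.filter_subset _ _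
      have hr : rest g (U ∪ U₂) s = rest g U s ∪ U₂ := by
        unfold rest
        rw [Finset.filter_union]
        congr 1
        exact Finset.filter_true_of_mem h0
      have hE : EE g (U ∪ U₂) s = EE g U s := by
        unfold EE
        rw [Finset.sum_union hd, Finset.sum_eq_zero h0, add_zero]
      have h4 := ih (Finset.disjoint_of_subset_left hsub hd)
        (fun t a ha d hd' => hna t a (hsub ha) d hd') h₂
      rw [← hr] at h4
      have h5 := Play.step (g := g) (U ∪ U₂) s (F + F₂) h4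
      rw [hE] at h5
      have h6 : F + |EE g U s - 1| - 1 + F₂ = F + F₂ + |EE g U s - 1| - 1 := by ring
      rw [h6]
      exact h5
    · have h0 : ∀ l ∈ U, g (s - l) = 0 := by
        intro l hl
        by_contra h3
        exact hm ⟨l, hl, h3⟩
      have hr : rest g U s = U := by
        unfold rest
        exact Finset.filter_true_of_mem h0
      have hE : EE g U s = 0 := by
        unfold EE
        exact Finset.sum_eq_zero h0
      rw [hr] at ih
      have h4 := ih hd hna h₂
      rw [hE]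
      have h6 : F + |(0 : ℤ) - 1| - 1 + F₂ = F + F₂ := by
        norm_num
      rw [h6]
      exact h4

theorem Val.union {g : ZMod n → ℤ} {U₁ U₂ : Finset (ZMod n)} {F₁ F₂ : ℤ} (hd : Disjoint U₁ U₂)
    (hna : ∀ s, ∀ a ∈ U₁, ∀ d ∈ U₂, g (s - a) ≠ 0 → g (s - d) ≠ 0 → False)
    (h₁ : Val g U₁ F₁) (h₂ : Val g U₂ F₂) : Val g (U₁ ∪ U₂) (F₁ + F₂) := by
  obtain ⟨G₁, hG₁, hP₁⟩ := h₁
  obtain ⟨G₂, hG₂, hP₂⟩ := h₂
  exact ⟨G₁ + G₂, by linarith, hP₁.union hd hna hP₂⟩

end Pool.Agent.Helper77.KZ
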